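import Pool.Agent.H14R2.LL.Defs
import Pool.Agent.H399R2.TE.MIXE

/-! Task PMIX of the project LL (helper14): partial mixing of the long words. -/

namespace LL14
open RC14 RC852 TE852 Finset Equiv

/-- partial mixing of the long words in `x` -/
theorem PMIX (n r a : ℕ) (hn : 2 * r + 2 ≤ n) (ha : 1 ≤ a) (x : Fin a → Alt n)
    (hx : Good1 n r (a : ℝ) x) (h : ℝ) (h0 : 2 / (n : ℝ) ≤ h) (h1 : h ≤ 1) (M : ℕ)
    (hM : 2 * (r * Real.log (1 / h)) ≤ M) : PMix r h (gx (lz x) M) := by
  intro d hd y z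
  have ha' : (0 : ℝ) < a := by exact_mod_cast ha
  have hn0 : (0 : ℝ) < n := by
    have : 0 < n := by omega
    exact_mod_cast this
  have hh : 0 < h := lt_of_lt_of_le (by positivity) h0
  obtain ⟨N, hNe⟩ : ∃ N : ℝ, N = Fintype.card (Tup d n) := ⟨_, rfl⟩
  have hN : 0 < N := by
    rw [hNe]
    exact_mod_cast card_Tup_pos (by omega : d ≤ n)
  have hNl : ((n : ℝ) / 2) ^ d ≤ N := by
    have e1 : (n + 1 - d) ^ d ≤ Fintype.card (Tup d n) := by
      rw [Fintype.card_embedding_eq]
      simp only [Fintype.card_fin]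
      exact Nat.pow_sub_le_descFactorial n d
    have e2 : (((n + 1 - d : ℕ) : ℝ)) ^ d ≤ N := by
      rw [hNe]
      exact_mod_cast e1
    refine le_trans (pow_le_pow_left₀ (by positivity) ?_ d) e2
    rw [Nat.cast_sub (by omega : d ≤ n + 1)]
    have e3 : 2 * (d : ℝ) + 2 ≤ n := by
      have : 2 * d + 2 ≤ n := by omega
      exact_mod_cast this
    push_cast
    linarith
  have hN1 : 1 / N ≤ h ^ d := by
    calc 1 / N ≤ 1 / ((n : ℝ) / 2) ^ d := one_div_le_one_div_of_le (by positivity) hNl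
      _ = (2 / (n : ℝ)) ^ d := by
          rw [one_div, ← inv_pow, inv_div]
      _ ≤ h ^ d := pow_le_pow_left₀ (by positivity) h0 d
  have hg : Good1 n d (a : ℝ) x := fun j hj1 hj2 v hv => hx j hj1 (hj2.trans hd) v hv
  have h1' := MIXEaux.mixing ha (by omega : d + 2 ≤ n) x a hg (Real.exp (-(1 / 4)))
    (Real.exp_pos _)
    (by
      have e1 := Real.add_one_le_exp (-(1 / 4) : ℝ)
      have e2 : (a : ℝ) / (4 * a) = 1 / 4 := by
        field_simp
      rw [e2]
      linarith) (2 * M) y z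
  rw [← hNe] at h1'
  set K : ℝ := ((Fintype.card (Fin (2 * M) → Fin (a + a) × Bool) : ℕ) : ℝ) with hK
  have hK0 : 0 ≤ K := by rw [hK]; positivity
  have h2 : Real.exp (-(1 / 4)) ^ (2 * M) ≤ h ^ d := by
    rw [← Real.exp_nat_mul]
    calc Real.exp (((2 * M : ℕ) : ℝ) * -(1 / 4))
        ≤ Real.exp (-(r * Real.log (1 / h))) := by
          apply Real.exp_le_exp.2
          push_cast
          linarith
      _ = h ^ r := by
          rw [one_div, Real.log_inv, mul_neg, neg_neg, Real.exp_nat_mul, Real.exp_log hh]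
      _ ≤ h ^ d := pow_le_pow_of_le_one hh.le h1 hd
  have h3 := (abs_le.1 h1').2
  have h4 : Real.exp (-(1 / 4)) ^ (2 * M) * K ≤ h ^ d * K :=
    mul_le_mul_of_nonneg_right h2 hK0
  have h5 : K / N ≤ h ^ d * K := by
    have := mul_le_mul_of_nonneg_right hN1 hK0
    have e : K / N = 1 / N * K := by ring
    rw [e]
    exact this
  have h6 : (#{v : Fin (2 * M) → Fin (a + a) × Bool |
      mv ((wrd (DM852.xl x) v : Alt n) : Perm (Fin n)) y = z} : ℝ) ≤ 2 * h ^ d * K := by
    linarith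
  exact h6

end LL14
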