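import Pool.Agent.H14R2.LL.Defs

/-! Task POWX of the project LL (helper14): a constant gap from words of a suitable length. -/

namespace LL14
open RC14 RC852 TE852 Finset Equiv
open scoped InnerProductSpace

namespace POWXx

section
variable {V : Type*} [NormedAddCommGroup V] [InnerProductSpace ℂ V]

theorem inner_pow {T : Module.End ℂ V} (hT : T.IsSymmetric) (m : ℕ) (v w : V) :
    ⟪(T ^ m) v, w⟫_ℂ = ⟪v, (T ^ m) w⟫_ℂ := by
  induction m generalizing v w with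
  | zero => simp
  | succ m ih =>
    rw [OPS.pow_succ_apply, hT, ih, ← Module.End.mul_apply, ← pow_succ]

theorem inner_pow_two {T : Module.End ℂ V} (hT : T.IsSymmetric) (m : ℕ) (v : V) :
    (⟪(T ^ (2 * m)) v, v⟫_ℂ).re = ‖(T ^ m) v‖ ^ 2 := by
  rw [two_mul, pow_add, Module.End.mul_apply, inner_pow hT]
  have := @inner_self_eq_norm_sq ℂ V _ _ _ ((T ^ m) v)
  simpa using this

/-- contraction on an invariant subspace -/
theorem contr {T : Module.End ℂ V} (hT : T.IsSymmetric) (h0 : ∀ u, 0 ≤ (⟪T u, u⟫_ℂ).re)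
    (W : Submodule ℂ V) (hW : ∀ u ∈ W, T u ∈ W) (l : ℝ) (hl : 0 < l)
    (h1 : ∀ u ∈ W, (⟪T u, u⟫_ℂ).re ≤ l * ‖u‖ ^ 2) (w : V) (hw : w ∈ W) :
    ‖T w‖ ^ 2 ≤ l ^ 2 * ‖w‖ ^ 2 := by
  have e1 := h1 w hw
  have e2 := h1 (T w) (hW w hw)
  have e3 := h0 (w - ((l⁻¹ : ℝ) : ℂ) • T w)
  have e4 : (⟪T w, T w⟫_ℂ).re = ‖T w‖ ^ 2 := by
    have := @inner_self_eq_norm_sq ℂ V _ _ _ (T w)
    simpa using this
  have e5 : (⟪T (T w), w⟫_ℂ).re = ‖T w‖ ^ 2 := by
    rw [hT (T w) w]; exact e4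
  have e6 : (⟪T (w - ((l⁻¹ : ℝ) : ℂ) • T w), w - ((l⁻¹ : ℝ) : ℂ) • T w⟫_ℂ).re =
      (⟪T w, w⟫_ℂ).re - 2 * l⁻¹ * ‖T w‖ ^ 2 + l⁻¹ ^ 2 * (⟪T (T w), T w⟫_ℂ).re := by
    rw [map_sub, map_smul, inner_sub_left, inner_sub_right, inner_sub_right, inner_smul_left,
      inner_smul_left, inner_smul_right, inner_smul_right, Complex.conj_ofReal]
    simp only [Complex.sub_re, Complex.re_ofReal_mul]
    rw [e4, e5]
    ring
  rw [e6] at e3
  have e7 : l⁻¹ ^ 2 * (⟪T (T w), T w⟫_ℂ).re ≤ l⁻¹ ^ 2 * (l * ‖T w‖ ^ 2) :=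
    mul_le_mul_of_nonneg_left e2 (by positivity)
  have e8 : l⁻¹ ^ 2 * (l * ‖T w‖ ^ 2) = l⁻¹ * ‖T w‖ ^ 2 := by
    field_simp
  have e9 : l⁻¹ * ‖T w‖ ^ 2 ≤ (⟪T w, w⟫_ℂ).re := by linarith
  have e10 : ‖T w‖ ^ 2 ≤ l * (⟪T w, w⟫_ℂ).re := by
    have := mul_le_mul_of_nonneg_left e9 hl.le
    rwa [← mul_assoc, mul_inv_cancel₀ hl.ne', one_mul] at this
  calc ‖T w‖ ^ 2 ≤ l * (⟪T w, w⟫_ℂ).re := e10
    _ ≤ l * (l * ‖w‖ ^ 2) := mul_le_mul_of_nonneg_left e1 hl.le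
    _ = l ^ 2 * ‖w‖ ^ 2 := by ring

theorem contr_pow {T : Module.End ℂ V} (hT : T.IsSymmetric) (h0 : ∀ u, 0 ≤ (⟪T u, u⟫_ℂ).re)
    (W : Submodule ℂ V) (hW : ∀ u ∈ W, T u ∈ W) (l : ℝ) (hl : 0 < l)
    (h1 : ∀ u ∈ W, (⟪T u, u⟫_ℂ).re ≤ l * ‖u‖ ^ 2) (m : ℕ) (w : V) (hw : w ∈ W) :
    (T ^ m) w ∈ W ∧ ‖(T ^ m) w‖ ^ 2 ≤ (l ^ m) ^ 2 * ‖w‖ ^ 2 := by
  induction m with
  | zero => simpa using hw
  | succ m ih =>
    rw [OPS.pow_succ_apply]
    refine ⟨hW _ ih.1, (contr hT h0 W hW l hl h1 _ ih.1).trans ?_⟩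
    calc l ^ 2 * ‖(T ^ m) w‖ ^ 2 ≤ l ^ 2 * ((l ^ m) ^ 2 * ‖w‖ ^ 2) :=
          mul_le_mul_of_nonneg_left ih.2 (by positivity)
      _ = (l ^ (m + 1)) ^ 2 * ‖w‖ ^ 2 := by ring

/-- the energy of the family of all words of length `2 m` -/
theorem En_words {G : Type*} [Group G] {q : ℕ} (hq : 1 ≤ q) (ρ : G →* (V ≃ₗᵢ[ℂ] V))
    (y : Fin q → G) (m : ℕ) (v : V) :
    En ρ (fun w : Fin (2 * m) → Fin q × Bool => wrd y w) v =
      2 * (Fintype.card (Fin (2 * m) → Fin q × Bool) : ℝ) *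
        (‖v‖ ^ 2 - ‖(Tq ρ y ^ m) v‖ ^ 2) := by
  classical
  have hq0 : (0 : ℝ) < q := by exact_mod_cast hq
  set κ : ℝ := 1 / (2 * q) with hκ
  have hT : Tq ρ y = ∑ p : Fin q × Bool, (κ : ℂ) • op ρ (sl y p) := by
    unfold Tq
    rw [Finset.smul_sum]
    refine Finset.sum_congr rfl fun p _ => ?_
    rw [hκ]
    push_cast
    rfl
  have hP : Tq ρ y ^ (2 * m) = ∑ w : Fin (2 * m) → Fin q × Bool,
      ((κ ^ (2 * m) : ℝ) : ℂ) • op ρ (wrd y w) := by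
    rw [hT, SFTRH.sum_pow_op ρ (fun p => sl y p) (fun _ => κ) (2 * m)]
    refine Finset.sum_congr rfl fun w _ => ?_
    rw [Finset.prod_const, Finset.card_univ, Fintype.card_fin]
    rfl
  have hin : ‖(Tq ρ y ^ m) v‖ ^ 2 =
      κ ^ (2 * m) * ∑ w : Fin (2 * m) → Fin q × Bool, (⟪ρ (wrd y w) v, v⟫_ℂ).re := by
    rw [← inner_pow_two (OPS.Tq_symm ρ y), hP, LinearMap.sum_apply, sum_inner, Complex.re_sum,
      Finset.mul_sum]
    refine Finset.sum_congr rfl fun w _ => ?_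
    rw [LinearMap.smul_apply, inner_smul_left, Complex.conj_ofReal, Complex.re_ofReal_mul]
    rfl
  have hcard : (Fintype.card (Fin (2 * m) → Fin q × Bool) : ℝ) * κ ^ (2 * m) = 1 := by
    rw [Fintype.card_fun, Fintype.card_prod, Fintype.card_fin, Fintype.card_bool,
      Fintype.card_fin]
    push_cast
    rw [← mul_pow, hκ]
    have : (q : ℝ) * 2 * (1 / (2 * q)) = 1 := by field_simp
    rw [this, one_pow]
  have hE : En ρ (fun w : Fin (2 * m) → Fin q × Bool => wrd y w) v =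
      ∑ w : Fin (2 * m) → Fin q × Bool, (2 * ‖v‖ ^ 2 - 2 * (⟪ρ (wrd y w) v, v⟫_ℂ).re) := by
    unfold En
    refine Finset.sum_congr rfl fun w _ => ?_
    rw [OPS.norm_sub_sq', (ρ (wrd y w)).norm_map]
    ring
  rw [hE, Finset.sum_sub_distrib, Finset.sum_const, Finset.card_univ, nsmul_eq_mul,
    ← Finset.mul_sum, hin]
  set S := ∑ w : Fin (2 * m) → Fin q × Bool, (⟪ρ (wrd y w) v, v⟫_ℂ).re
  set C := (Fintype.card (Fin (2 * m) → Fin q × Bool) : ℝ)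
  have : 2 * C * (‖v‖ ^ 2 - κ ^ (2 * m) * S) = C * (2 * ‖v‖ ^ 2) - 2 * ((C * κ ^ (2 * m)) * S) := by
    ring
  rw [this, hcard, one_mul]

end

end POWXx

open POWXx in
/-- words of a suitable length in `x` have a constant normalised gap, and cost at most `4 / c` -/
theorem POWX (n r a : ℕ) (ha : 1 ≤ a) (c : ℝ) (hc : 0 < c) (hc1 : c ≤ 1) (x : Fin a → Alt n)
    (hx : Good1 n r c x) :
    ∃ (a' : ℕ) (x' : Fin a' → Alt n), 1 ≤ a' ∧ Good1 n r (a' : ℝ) x' ∧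
      ∀ (j : ℕ) (v : V j n),
        1 / (a' : ℝ) * En (repA j n) x' v ≤ 4 / c * En (repA j n) x v := by
  classical
  have ha0 : (0 : ℝ) < a := by exact_mod_cast ha
  have ha1 : (1 : ℝ) ≤ a := by exact_mod_cast ha
  set m : ℕ := ⌈2 * (a : ℝ) / c⌉₊ with hm
  have hm1 : 2 * (a : ℝ) / c ≤ m := Nat.le_ceil _
  have h2 : 1 ≤ 2 * (a : ℝ) / c := by
    rw [le_div_iff₀ hc]; linarith
  have hm2 : (m : ℝ) ≤ 4 * a / c := by
    have e1 := (Nat.ceil_lt_add_one (by positivity : 0 ≤ 2 * (a : ℝ) / c)).le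
    have e2 : 4 * (a : ℝ) / c = 2 * a / c + 2 * a / c := by ring
    rw [e2]
    linarith
  set W := Fin (2 * m) → Fin (a + a) × Bool with hWdef
  set C : ℕ := Fintype.card W with hC
  have hCpos : 1 ≤ C := by
    have : Nonempty W := ⟨fun _ => (⟨0, by omega⟩, true)⟩
    exact Fintype.card_pos
  have hC0 : (0 : ℝ) < C := by exact_mod_cast hCpos
  let e : Fin C ≃ W := (Fintype.equivFin W).symm
  refine ⟨C, fun i => wrd (lz x) (e i), hCpos, ?_, ?_⟩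
  · intro j hj1 hj2 v hv
    have hE : En (repA j n) (fun i => wrd (lz x) (e i)) v =
        En (repA j n) (fun w : W => wrd (lz x) w) v := by
      unfold En
      exact e.sum_comp fun w => ‖repA j n (wrd (lz x) w) v - v‖ ^ 2
    rw [hE, En_words (by omega) (repA j n) (lz x) m v]
    have hT : (Tq (repA j n) (lz x)).IsSymmetric := OPS.Tq_symm _ _
    have hcp := (contr_pow hT (fun u => (LZEN' ha (repA j n) x u).1) (Lvl j n)
      (by
        intro u hu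
        rw [OPS.Tq_apply]
        refine Submodule.smul_mem _ _ (Submodule.sum_mem _ fun p _ => ?_)
        exact Lvl_inv j n _ u hu)
      (Real.exp (-(c / (4 * a)))) (Real.exp_pos _)
      (by
        intro u hu
        rw [(LZEN' ha (repA j n) x u).2]
        have e1 := hx j hj1 hj2 u hu
        have e2 := Real.add_one_le_exp (-(c / (4 * a)))
        have e3 : c / (4 * a) * ‖u‖ ^ 2 ≤ En (repA j n) x u / (4 * a) := by
          rw [div_mul_eq_mul_div]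
          exact div_le_div_of_nonneg_right e1 (by positivity)
        have e4 : (1 - c / (4 * a)) * ‖u‖ ^ 2 ≤ Real.exp (-(c / (4 * a))) * ‖u‖ ^ 2 :=
          mul_le_mul_of_nonneg_right (by linarith) (sq_nonneg _)
        linarith) m v hv).2
    have h3 : (Real.exp (-(c / (4 * a))) ^ m) ^ 2 ≤ 1 / 2 := by
      rw [← pow_mul, ← Real.exp_nat_mul]
      have e1 : ((m * 2 : ℕ) : ℝ) * -(c / (4 * a)) ≤ -1 := by
        push_cast
        rw [div_le_iff₀ hc] at hm1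
        have e2 : (m : ℝ) * 2 * -(c / (4 * a)) = -((m * c) / (2 * a)) := by
          field_simp; ring
        rw [e2, neg_le_neg_iff, le_div_iff₀ (by positivity)]
        linarith
      refine (Real.exp_le_exp.2 e1).trans ?_
      have := Real.exp_one_gt_d9
      rw [Real.exp_neg, inv_eq_one_div]
      exact one_div_le_one_div_of_le (by norm_num) (by linarith)
    have h4 : ‖(Tq (repA j n) (lz x) ^ m) v‖ ^ 2 ≤ 1 / 2 * ‖v‖ ^ 2 :=
      hcp.trans (mul_le_mul_of_nonneg_right h3 (sq_nonneg _))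
    have h5 : (C : ℝ) * ‖v‖ ^ 2 = 2 * C * (‖v‖ ^ 2 - 1 / 2 * ‖v‖ ^ 2) := by ring
    rw [h5]
    exact mul_le_mul_of_nonneg_left (by linarith) (by positivity)
  · intro j v
    have hE : En (repA j n) (fun i => wrd (lz x) (e i)) v =
        En (repA j n) (fun w : W => wrd (lz x) w) v := by
      unfold En
      exact e.sum_comp fun w => ‖repA j n (wrd (lz x) w) v - v‖ ^ 2
    rw [hE, En_words (by omega) (repA j n) (lz x) m v]
    have hT : (Tq (repA j n) (lz x)).IsSymmetric := OPS.Tq_symm _ _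
    have h3 := OPS.sq_pow hT (fun u => OPS.Tq_norm (by omega) (repA j n) (lz x) u) m v
    rw [(LZEN' ha (repA j n) x v).2] at h3
    have h4 : 1 / (C : ℝ) * (2 * C * (‖v‖ ^ 2 - ‖(Tq (repA j n) (lz x) ^ m) v‖ ^ 2)) =
        2 * (‖v‖ ^ 2 - ‖(Tq (repA j n) (lz x) ^ m) v‖ ^ 2) := by
      field_simp
    rw [h4]
    have h5 := En_nonneg (repA j n) x v
    have h6 : 2 * (2 * (m : ℝ) * (‖v‖ ^ 2 - (‖v‖ ^ 2 - En (repA j n) x v / (4 * a)))) =
        m / a * En (repA j n) x v := by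
      field_simp
      ring
    have h7 : (m : ℝ) / a ≤ 4 / c := by
      rw [div_le_iff₀ ha0]
      have : 4 / c * (a : ℝ) = 4 * a / c := by ring
      rw [this]
      exact hm2
    calc 2 * (‖v‖ ^ 2 - ‖(Tq (repA j n) (lz x) ^ m) v‖ ^ 2) ≤
        2 * (2 * (m : ℝ) * (‖v‖ ^ 2 - (‖v‖ ^ 2 - En (repA j n) x v / (4 * a)))) := by linarith
      _ = m / a * En (repA j n) x v := h6
      _ ≤ 4 / c * En (repA j n) x v := mul_le_mul_of_nonneg_right h7 h5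

end LL14
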